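import Pool.Agent.Lib.MP_e7684b_al.Reduced

set_option autoImplicit false

namespace Pool.Agent.Results.MP_e7684b_al.NotFinitelyBased

open Pool.Agent.MP_e7684b_al

universe u

/-- Over every field `F` of characteristic three there is a variety of `F`-algebras, given by a set
`S` of identities, all of whose algebras are commutative, alternative and solvable (with
`derivedSer F A 3 = 0`, which is `A^(4) = 0` in the numbering of the problem), and which is not
defined by any finite set `T` of identities. -/
theorem result (F : Type u) [Field F] [CharP F 3] :
    ∃ S : Set (FreeNonUnitalNonAssocAlgebra F ℕ),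
      (∀ (A : Type u) [NonUnitalNonAssocRing A] [Module F A] [IsScalarTower F A A]
        [SMulCommClass F A A], Models F S A →
          (∀ x y : A, x * y = y * x) ∧
          (∀ x y : A, (x * x) * y = x * (x * y) ∧ (y * x) * x = y * (x * x)) ∧
          derivedSer F A 3 = ⊥) ∧
      ¬ ∃ T : Set (FreeNonUnitalNonAssocAlgebra F ℕ), T.Finite ∧
        ∀ (A : Type u) [NonUnitalNonAssocRing A] [Module F A] [IsScalarTower F A A]
          [SMulCommClass F A A], Models F T A ↔ Models F S A :=
  ⟨SS F, main F⟩

end Pool.Agent.Results.MP_e7684b_al.NotFinitelyBased
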